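import Pool.Statements.S02340
-- import your own Pool.Agent.* helpers here
import Pool.Agent.TH74.RS.Fin

set_option autoImplicit false
open Pool Pool.MP_94a9ea_al

namespace Pool.Agent.S02340

/-- The negation of the preceding statement: Every group in which no nonempty product of conjugates of a non-identity element equals the identity admits a linear order invariant under right multiplication. -/
theorem result :
    ¬ (∀ (G : Type) [Group G],
      (∀ g : G, g ≠ 1 → ∀ l : List G, l ≠ [] →
        (l.map (fun h => h * g * h⁻¹)).prod ≠ 1) →
      ∃ o : LinearOrder G, ∀ a b c : G, a ≤ b → a * c ≤ b * c) := by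
  exact Pool.Agent.TH74.RS.not_all

end Pool.Agent.S02340
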