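import Pool.Statements.S05535
import Pool.Agent.TH293.MulRec

set_option autoImplicit false
open Pool Pool.MP_9c5181_an

namespace Pool.Agent.S05535

/-- For every finite colouring of the natural numbers there are positive x, y of the same colour and positive m, n with x/y = (m^2+n^2)/m^2. -/
theorem result :
    ∀ r : ℕ, ∀ c : ℕ → Fin r,
      ∃ x y m n : ℕ, 0 < x ∧ 0 < y ∧ 0 < m ∧ 0 < n ∧ c x = c y ∧
        x * m ^ 2 = y * (m ^ 2 + n ^ 2) := by
  exact fun r c => Pool.Agent.TH293.MulRec.nat_version (Fin r) c

end Pool.Agent.S05535
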