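import Pool.Statements.S05959
-- import your own Pool.Agent.* helpers here
import Pool.Agent.TH217.BE3

set_option autoImplicit false
open Pool Pool.MP_bcf514_an

namespace Pool.Agent.S05959

/-- There is k ≥ 2 such that any entire f, g for which f^(n)/g^(n) is entire and zero-free for all n ≤ k either have f = c·g, or are e^(az+b), e^(cz+d), or are A(e^(az)−b), B(e^(−az)−1/b) with b ≠ 0. -/
theorem result :
    ∃ k : ℕ, 2 ≤ k ∧
      ∀ f g : ℂ → ℂ, Differentiable ℂ f → Differentiable ℂ g →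
        (∀ n : ℕ, n ≤ k →
          (∃ z : ℂ, iteratedDeriv n g z ≠ 0) ∧
          ∃ h : ℂ → ℂ, Differentiable ℂ h ∧ (∀ z : ℂ, h z ≠ 0) ∧
            ∀ z : ℂ, iteratedDeriv n f z = h z * iteratedDeriv n g z) →
        (∃ c : ℂ, ∀ z : ℂ, f z = c * g z) ∨
        (∃ a b c d : ℂ, ∀ z : ℂ,
            f z = Complex.exp (a * z + b) ∧ g z = Complex.exp (c * z + d)) ∨
        (∃ a b A B : ℂ, b ≠ 0 ∧ ∀ z : ℂ,
            f z = A * (Complex.exp (a * z) - b) ∧
            g z = B * (Complex.exp (-(a * z)) - b⁻¹)) := by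
  refine ⟨42, by norm_num, fun f g hf hg hZ => ?_⟩
  have hex : ∀ n : ℕ, ∃ h : ℂ → ℂ, n ≤ 42 → Differentiable ℂ h ∧ (∀ z : ℂ, h z ≠ 0) ∧
      ∀ z : ℂ, iteratedDeriv n f z = h z * iteratedDeriv n g z := by
    intro n
    by_cases hn : n ≤ 42
    · obtain ⟨h, hh⟩ := (hZ n hn).2
      exact ⟨h, fun _ => hh⟩
    · exact ⟨fun _ => 0, fun h => absurd h hn⟩
  choose h hh using hex
  rcases Pool.Agent.TH217.BA.descent (h := h) hf hg (fun n hn => (hZ n hn).1)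
    (fun n hn => (hh n hn).1) (fun n hn => (hh n hn).2.1) (fun n hn => (hh n hn).2.2) with
      ⟨c, hc⟩ | ⟨m, l, b, d, -, -, hE⟩ | ⟨a, b, A, B, -, hb, -, -, hE⟩
  · exact Or.inl ⟨c, hc⟩
  · exact Or.inr (Or.inl ⟨m, b, l, d, hE⟩)
  · exact Or.inr (Or.inr ⟨a, b, A, B, hb, hE⟩)

end Pool.Agent.S05959
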