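import Pool.Statements.S08598

set_option autoImplicit false
open Pool Pool.MP_4a9f27_co

namespace Pool.Agent.S08598

/-- The first coordinates of a list of pairwise distinct elements of `S` add up to at most the
number of elements of `S` outside the kernel. -/
theorem prod_fst_le (m : ℕ) (S T : Finset (Multiplicative (ℤ × ZMod m)))
    (hS : ∀ x ∈ S, (x ∉ T ∧ x.toAdd.1 = 0) ∨ (x ∈ T ∧ x.toAdd.1 = 1)) :
    ∀ l : List (Multiplicative (ℤ × ZMod m)), l.Nodup → (∀ x ∈ l, x ∈ S) →
      0 ≤ l.prod.toAdd.1 ∧ l.prod.toAdd.1 ≤ ((l.toFinset ∩ T).card : ℤ) := by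
  intro l
  induction l with
  | nil => intro _ _; simp
  | cons a l ih =>
    intro hn hl
    rw [List.nodup_cons] at hn
    obtain ⟨h1, h2⟩ := ih hn.2 (fun x hx => hl x (List.mem_cons_of_mem _ hx))
    have ha := hl a (by simp)
    rw [List.prod_cons, toAdd_mul, Prod.fst_add]
    rcases hS a ha with ⟨haT, ha0⟩ | ⟨haT, ha1⟩
    · have h3 : ((l.toFinset ∩ T).card : ℤ) ≤ (((a :: l).toFinset ∩ T).card : ℤ) := by
        exact_mod_cast Finset.card_le_card (Finset.inter_subset_inter_right (by
          intro x hx; simp at hx ⊢; exact Or.inr hx))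
      omega
    · have h4 : (((a :: l).toFinset ∩ T).card) = (l.toFinset ∩ T).card + 1 := by
        rw [List.toFinset_cons, Finset.insert_inter_of_mem haT, Finset.card_insert_of_notMem]
        simp [hn.1]
      rw [h4]
      push_cast
      omega

theorem key (c : ℝ) (hc : 0 < c) : ∃ (m k : ℕ), 0 < k ∧ k ≤ m ∧ 1 < c * k ∧
    4 * ((k : ℝ) + 1) < c * m := by
  obtain ⟨k, hk⟩ := exists_nat_gt (1 / c)
  have hk0 : 0 < (k : ℝ) := lt_trans (by positivity) hk
  obtain ⟨m, hm⟩ := exists_nat_gt (max (k : ℝ) (4 * ((k : ℝ) + 1) / c))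
  refine ⟨m, k, by exact_mod_cast hk0, ?_, ?_, ?_⟩
  · have := lt_of_le_of_lt (le_max_left _ _) hm
    exact_mod_cast this.le
  · rw [div_lt_iff₀ hc] at hk; linarith
  · have := lt_of_le_of_lt (le_max_right _ _) hm
    rw [div_lt_iff₀ hc] at this; linarith

/-- The negation of the preceding statement: There is c>0 such that for every group G and finite S in G, some finite subgroup H has #(products of distinct elements of S in any order, including 1) at least ∣H∣ + c·∣H∣·∣S minus H∣². -/
theorem result :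
    ¬ (∃ c : ℝ, 0 < c ∧ ∀ (G : Type) [Group G] (S : Finset G),
      ∃ H : Subgroup G, (H : Set G).Finite ∧
        ((Set.ncard {g : G | ∃ l : List G, l.Nodup ∧ (∀ x ∈ l, x ∈ S) ∧ l.prod = g} : ℕ) : ℝ)
          ≥ (Nat.card H : ℝ) + c * (Nat.card H : ℝ)
              * ((Set.ncard ((S : Set G) \ (H : Set G)) : ℕ) : ℝ) ^ 2) := by
  rintro ⟨c, hc, h⟩
  obtain ⟨m, k, hk0, hkm, hk, hm⟩ := key c hc
  have hm0 : 0 < m := by omega
  have : NeZero m := ⟨hm0.ne'⟩
  classical
  let G := Multiplicative (ℤ × ZMod m)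
  let V : Finset G := Finset.univ.image (fun j : ZMod m => Multiplicative.ofAdd ((0 : ℤ), j))
  let T : Finset G := (Finset.range k).image (fun i : ℕ => Multiplicative.ofAdd ((1 : ℤ), (i : ZMod m)))
  have hVc : V.card = m := by
    rw [Finset.card_image_of_injective, Finset.card_univ, ZMod.card]
    intro a b hab
    simpa using hab
  have hTc : T.card = k := by
    rw [Finset.card_image_of_injOn, Finset.card_range]
    intro a ha b hb hab
    have ha' : a < k := by simpa using ha
    have hb' : b < k := by simpa using hb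
    have h1 : (a : ZMod m) = (b : ZMod m) := by simpa using hab
    have h2 := (ZMod.natCast_eq_natCast_iff' a b m).1 h1
    rwa [Nat.mod_eq_of_lt (by omega), Nat.mod_eq_of_lt (by omega)] at h2
  have hV0 : ∀ x ∈ V, x.toAdd.1 = 0 := by
    intro x hx
    obtain ⟨j, -, rfl⟩ := Finset.mem_image.1 hx
    rfl
  have hT1 : ∀ x ∈ T, x.toAdd.1 = 1 := by
    intro x hx
    obtain ⟨j, -, rfl⟩ := Finset.mem_image.1 hx
    rfl
  have hVmem : ∀ x : G, x.toAdd.1 = 0 → x ∈ V := by
    intro x hx
    refine Finset.mem_image.2 ⟨x.toAdd.2, Finset.mem_univ _, ?_⟩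
    have h1 : (((0 : ℤ), x.toAdd.2) : ℤ × ZMod m) = x.toAdd := by rw [← hx]
    rw [h1]
    rfl
  obtain ⟨H, hHf, hH⟩ := h G (V ∪ T)
  -- the set of products is small
  have hprod : Set.ncard {g : G | ∃ l : List G, l.Nodup ∧ (∀ x ∈ l, x ∈ V ∪ T) ∧ l.prod = g}
      ≤ (k + 1) * m := by
    have hsub : {g : G | ∃ l : List G, l.Nodup ∧ (∀ x ∈ l, x ∈ V ∪ T) ∧ l.prod = g} ⊆
        (((Finset.Icc (0 : ℤ) k) ×ˢ (Finset.univ : Finset (ZMod m))).image
          (fun q => (Multiplicative.ofAdd q : G)) : Finset G) := by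
      rintro g ⟨l, hn, hl, rfl⟩
      obtain ⟨h1, h2⟩ := prod_fst_le m (V ∪ T) T (by
        intro x hx
        rcases Finset.mem_union.1 hx with hx | hx
        · left
          refine ⟨fun hxT => ?_, hV0 x hx⟩
          have h1 := hV0 x hx
          rw [hT1 x hxT] at h1
          exact one_ne_zero h1
        · exact Or.inr ⟨hx, hT1 x hx⟩) l hn hl
      have h3 : ((l.toFinset ∩ T).card : ℤ) ≤ k := by
        have := Finset.card_le_card (Finset.inter_subset_right : l.toFinset ∩ T ⊆ T)
        rw [hTc] at this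
        exact_mod_cast this
      rw [Finset.coe_image]
      refine ⟨l.prod.toAdd, ?_, rfl⟩
      rw [Finset.mem_coe, Finset.mem_product]
      exact ⟨Finset.mem_Icc.2 ⟨h1, h2.trans h3⟩, Finset.mem_univ _⟩
    refine (Set.ncard_le_ncard hsub (Finset.finite_toSet _)).trans ?_
    rw [Set.ncard_coe_finset]
    refine Finset.card_image_le.trans ?_
    rw [Finset.card_product, Finset.card_univ, ZMod.card, Int.card_Icc]
    simp
  -- finite subgroups lie in the kernel
  have hH0 : ∀ x ∈ H, x.toAdd.1 = 0 := by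
    intro x hx
    have : Finite H := hHf
    obtain ⟨n, hn, hxn⟩ := isOfFinOrder_iff_pow_eq_one.1 (isOfFinOrder_of_finite (⟨x, hx⟩ : H))
    have h1 : x ^ n = 1 := by
      have := congrArg Subtype.val hxn
      simpa using this
    have h2 : (n • x.toAdd).1 = 0 := by
      rw [← toAdd_pow, h1]; rfl
    rw [Prod.smul_fst, smul_eq_zero] at h2
    rcases h2 with h2 | h2
    · omega
    · exact h2
  have hHV : (H : Set G) ⊆ (V : Set G) := fun x hx => hVmem x (hH0 x hx)
  -- the cardinality of H divides m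
  let K : Subgroup G := (MonoidHom.ker (AddMonoidHom.toMultiplicative (AddMonoidHom.fst ℤ (ZMod m))))
  have hKV : (K : Set G) = (V : Set G) := by
    ext x
    constructor
    · intro hx
      exact hVmem x (by
        have h1 : (AddMonoidHom.toMultiplicative (AddMonoidHom.fst ℤ (ZMod m))) x = 1 := hx
        exact h1)
    · intro hx
      have h1 := hV0 x hx
      show (AddMonoidHom.toMultiplicative (AddMonoidHom.fst ℤ (ZMod m))) x = 1
      exact h1
  have hKc : Nat.card K = m := by
    have h1 : Nat.card K = Set.ncard (K : Set G) := rfl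
    rw [h1, hKV, Set.ncard_coe_finset, hVc]
  have hHK : H ≤ K := by
    intro x hx
    have h1 : x ∈ (K : Set G) := by rw [hKV]; exact hHV hx
    exact h1
  have hdvd : Nat.card H ∣ m := by
    have h1 := Subgroup.card_dvd_of_le hHK
    rw [hKc] at h1
    exact h1
  obtain ⟨q, hq⟩ := hdvd
  have hHc : Nat.card H = Set.ncard (H : Set G) := rfl
  set n := Nat.card H with hn
  have hn0 : 0 < n := by
    rcases Nat.eq_zero_or_pos n with h0 | h0
    · rw [h0] at hq; simp at hq; omega
    · exact h0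
  have hTH : (T : Set G) ⊆ ((V ∪ T : Finset G) : Set G) \ (H : Set G) := by
    intro x hx
    refine ⟨by rw [Finset.mem_coe]; exact Finset.mem_union_right _ hx, fun hxH => ?_⟩
    have h1 := hH0 x hxH
    rw [hT1 x hx] at h1
    exact one_ne_zero h1
  have hfin : (((V ∪ T : Finset G) : Set G) \ (H : Set G)).Finite :=
    (Finset.finite_toSet _).sdiff
  have hs1 : k ≤ Set.ncard (((V ∪ T : Finset G) : Set G) \ (H : Set G)) := by
    have := Set.ncard_le_ncard hTH hfin
    rwa [Set.ncard_coe_finset, hTc] at this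
  have hs2 : m ≤ n + Set.ncard (((V ∪ T : Finset G) : Set G) \ (H : Set G)) := by
    have h1 : (V : Set G) ⊆ (H : Set G) ∪ (((V ∪ T : Finset G) : Set G) \ (H : Set G)) := by
      intro x hx
      by_cases hxH : x ∈ (H : Set G)
      · exact Or.inl hxH
      · exact Or.inr ⟨by rw [Finset.mem_coe]; exact Finset.mem_union_left _ hx, hxH⟩
    have h2 := Set.ncard_le_ncard h1 (hHf.union hfin)
    rw [Set.ncard_coe_finset, hVc] at h2
    exact h2.trans (Set.ncard_union_le _ _)
  set s := Set.ncard (((V ∪ T : Finset G) : Set G) \ (H : Set G)) with hs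
  have hprodR : ((Set.ncard {g : G | ∃ l : List G, l.Nodup ∧ (∀ x ∈ l, x ∈ V ∪ T) ∧ l.prod = g} : ℕ) : ℝ)
      ≤ ((k : ℝ) + 1) * m := by exact_mod_cast hprod
  have hmain : (n : ℝ) + c * n * (s : ℝ) ^ 2 ≤ ((k : ℝ) + 1) * m := le_trans hH hprodR
  have hmR : (0 : ℝ) < m := by exact_mod_cast hm0
  have hnR : (1 : ℝ) ≤ n := by exact_mod_cast hn0
  have hkR : (0 : ℝ) < k := by exact_mod_cast hk0
  have hsk : (k : ℝ) ≤ s := by exact_mod_cast hs1
  rcases Nat.lt_or_ge q 2 with hq2 | hq2
  · -- H has m elements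
    have hq1 : q = 1 := by
      rcases Nat.eq_zero_or_pos q with h0 | h0
      · rw [h0] at hq; simp at hq; omega
      · omega
    rw [hq1, mul_one] at hq
    have hnm : (n : ℝ) = m := by exact_mod_cast hq.symm
    rw [hnm] at hmain
    have h1 : (k : ℝ) ^ 2 ≤ (s : ℝ) ^ 2 := by nlinarith
    have h2 : c * m * (k : ℝ) ^ 2 ≤ c * m * (s : ℝ) ^ 2 :=
      mul_le_mul_of_nonneg_left h1 (by positivity)
    have h3 : (m : ℝ) * k < c * m * (k : ℝ) ^ 2 := by
      have : (m : ℝ) * k * 1 < m * k * (c * k) := mul_lt_mul_of_pos_left hk (by positivity)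
      nlinarith
    nlinarith
  · -- H has at most m / 2 elements
    have h1 : 2 * n ≤ m := by rw [hq]; nlinarith
    have h2 : (m : ℝ) / 2 ≤ s := by
      have h3 : m ≤ 2 * s := by omega
      have h4 : (m : ℝ) ≤ 2 * s := by exact_mod_cast h3
      linarith
    have h3 : ((m : ℝ) / 2) ^ 2 ≤ (s : ℝ) ^ 2 := by
      have : (0 : ℝ) ≤ (m : ℝ) / 2 := by positivity
      nlinarith
    have h4 : c * 1 * ((m : ℝ) / 2) ^ 2 ≤ c * n * (s : ℝ) ^ 2 := by
      apply mul_le_mul _ h3 (by positivity) (by positivity)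
      exact mul_le_mul_of_nonneg_left hnR hc.le
    have h5 : ((k : ℝ) + 1) * m < c * 1 * ((m : ℝ) / 2) ^ 2 := by
      have : 4 * ((k : ℝ) + 1) * m < c * m * m := mul_lt_mul_of_pos_right hm hmR
      nlinarith
    linarith

end Pool.Agent.S08598
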