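import Pool.Statements.S09776

set_option autoImplicit false
open Pool Pool.MP_814928_co

namespace Pool.Agent.S09776

/-- The plane. -/
abbrev Pl := EuclideanSpace ℝ (Fin 2)

/-- First coordinates of the centres of the eight squares. -/
def px : Fin 8 → ℤ := ![16, 20, 35, 5, -1, 31, -41, -10]

/-- Second coordinates of the centres of the eight squares. -/
def py : Fin 8 → ℤ := ![15, 0, 0, 0, 18, 15, 10, 2]

/-- The centres of the eight squares. -/
noncomputable def ctr (i : Fin 8) : Pl := !₂[(px i : ℝ), (py i : ℝ)]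

/-- The square with centre `0` and side `14`. -/
def Sq : Set Pl := {x | |x 0| ≤ 7 ∧ |x 1| ≤ 7}

/-- Lines `a x + b y = c`, every three squares are met by one of them. -/
def tab : List ((ℤ × ℤ) × ℤ) := [((0, -1), -7), ((-1, 2), 16), ((-1, -2), -41), ((-1, 4), 46), ((1, 5), 47), ((-1, 2), -7), ((-1, -15), -132), ((-1, -2), -15), ((-1, 3), -12), ((5, -57), -409), ((-1, -2), -26), ((-1, -15), -147), ((5, -72), -439)]

lemma px_0 : px 0 = 16 := rfl
lemma px_1 : px 1 = 20 := rfl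
lemma px_2 : px 2 = 35 := rfl
lemma px_3 : px 3 = 5 := rfl
lemma px_4 : px 4 = -1 := rfl
lemma px_5 : px 5 = 31 := rfl
lemma px_6 : px 6 = -41 := rfl
lemma px_7 : px 7 = -10 := rfl
lemma py_0 : py 0 = 15 := rfl
lemma py_1 : py 1 = 0 := rfl
lemma py_2 : py 2 = 0 := rfl
lemma py_3 : py 3 = 0 := rfl
lemma py_4 : py 4 = 18 := rfl
lemma py_5 : py 5 = 15 := rfl
lemma py_6 : py 6 = 10 := rfl
lemma py_7 : py 7 = 2 := rfl

lemma ctr0 (i : Fin 8) : ctr i 0 = px i := by simp [ctr]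
lemma ctr1 (i : Fin 8) : ctr i 1 = py i := by simp [ctr]

lemma far : ∀ i j : Fin 8, i ≠ j → 14 < |px i - px j| ∨ 14 < |py i - py j| := by decide

lemma ctr_inj : Function.Injective ctr := by
  intro i j h
  by_contra hne
  have h0 : px i = px j := by
    have := congrArg (fun z : Pl => z 0) h
    simp only [ctr0] at this
    exact_mod_cast this
  have h1 : py i = py j := by
    have := congrArg (fun z : Pl => z 1) h
    simp only [ctr1] at this
    exact_mod_cast this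
  rcases far i j hne with h | h
  · simp [h0] at h
  · simp [h1] at h

lemma tab_spec : ∀ i j k : Fin 8, ∃ t ∈ tab, (t.1.1 ≠ 0 ∨ t.1.2 ≠ 0) ∧
    ∀ l ∈ [i, j, k], |t.1.1 * px l + t.1.2 * py l - t.2| ≤ 7 * (|t.1.1| + |t.1.2|) := by
  decide

lemma sq_compact : IsCompact Sq := by
  have hc : IsClosed Sq := by
    have h0 : Continuous fun x : Pl => |x 0| := by fun_prop
    have h1 : Continuous fun x : Pl => |x 1| := by fun_prop
    exact (isClosed_le h0 continuous_const).inter (isClosed_le h1 continuous_const)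
  refine Metric.isCompact_of_isClosed_isBounded hc ?_
  refine (Metric.isBounded_closedBall (x := (0 : Pl)) (r := 14)).subset ?_
  intro x hx
  rw [Metric.mem_closedBall, dist_zero_right, EuclideanSpace.norm_eq]
  rw [Real.sqrt_le_left (by norm_num)]
  simp only [Fin.sum_univ_two, Real.norm_eq_abs]
  obtain ⟨h0, h1⟩ := hx
  have := abs_nonneg (x 0)
  have := abs_nonneg (x 1)
  nlinarith

lemma sq_convex : Convex ℝ Sq := by
  intro x hx y hy a b ha hb hab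
  obtain ⟨x0, x1⟩ := hx
  obtain ⟨y0, y1⟩ := hy
  rw [abs_le] at x0 x1 y0 y1
  have hb' : b = 1 - a := by linarith
  constructor
  · simp only [PiLp.add_apply, PiLp.smul_apply, smul_eq_mul]
    rw [abs_le]
    constructor <;> nlinarith
  · simp only [PiLp.add_apply, PiLp.smul_apply, smul_eq_mul]
    rw [abs_le]
    constructor <;> nlinarith

lemma mem_trans {a z : Pl} : z ∈ (fun x => a + x) '' Sq ↔ |z 0 - a 0| ≤ 7 ∧ |z 1 - a 1| ≤ 7 := by
  constructor
  · rintro ⟨x, ⟨h0, h1⟩, rfl⟩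
    simp only [PiLp.add_apply, add_sub_cancel_left]
    exact ⟨h0, h1⟩
  · rintro ⟨h0, h1⟩
    refine ⟨z - a, ⟨?_, ?_⟩, by simp⟩
    · simpa using h0
    · simpa using h1

/-- A line `a x + b y = c` which is close to the centre meets the square. -/
lemma hits {u0 u1 c : ℝ} (hu : u0 ≠ 0 ∨ u1 ≠ 0) (a : Pl)
    (h : |u0 * a 0 + u1 * a 1 - c| ≤ 7 * (|u0| + |u1|)) :
    ∃ s : ℝ, (!₂[c * u0 / (u0 ^ 2 + u1 ^ 2), c * u1 / (u0 ^ 2 + u1 ^ 2)] : Pl) +
      s • (!₂[-u1, u0] : Pl) ∈ (fun x => a + x) '' Sq := by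
  have hN : 0 < u0 ^ 2 + u1 ^ 2 := by
    rcases hu with h | h <;> positivity
  have hS : 0 < |u0| + |u1| := by
    rcases hu with h | h
    · have := abs_pos.2 h; have := abs_nonneg u1; linarith
    · have := abs_pos.2 h; have := abs_nonneg u0; linarith
  set τ : ℝ := (c - (u0 * a 0 + u1 * a 1)) / (|u0| + |u1|) with hτ
  have hτ7 : |τ| ≤ 7 := by
    rw [hτ, abs_div, abs_of_pos hS, div_le_iff₀ hS, abs_sub_comm]
    exact h
  -- the point of the square on the line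
  have hs0 : |(SignType.sign u0 : ℝ)| ≤ 1 := by
    rcases lt_trichotomy u0 0 with h | h | h <;> simp [h]
  have hs1 : |(SignType.sign u1 : ℝ)| ≤ 1 := by
    rcases lt_trichotomy u1 0 with h | h | h <;> simp [h]
  have e0 : u0 * (SignType.sign u0 : ℝ) = |u0| := by
    rw [mul_comm]; exact sign_mul_self u0
  have e1 : u1 * (SignType.sign u1 : ℝ) = |u1| := by
    rw [mul_comm]; exact sign_mul_self u1
  set q0 : ℝ := a 0 + τ * (SignType.sign u0 : ℝ)
  set q1 : ℝ := a 1 + τ * (SignType.sign u1 : ℝ)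
  have hq : u0 * q0 + u1 * q1 = c := by
    have : u0 * q0 + u1 * q1 = (u0 * a 0 + u1 * a 1) + τ * (|u0| + |u1|) := by
      rw [← e0, ← e1]; simp only [q0, q1]; ring
    rw [this, hτ, div_mul_cancel₀ _ hS.ne']
    ring
  refine ⟨(-u1 * q0 + u0 * q1) / (u0 ^ 2 + u1 ^ 2), ?_⟩
  rw [mem_trans]
  have c0 : c * u0 / (u0 ^ 2 + u1 ^ 2) + (-u1 * q0 + u0 * q1) / (u0 ^ 2 + u1 ^ 2) * -u1 = q0 := by
    rw [← hq]; field_simp; ring
  have c1 : c * u1 / (u0 ^ 2 + u1 ^ 2) + (-u1 * q0 + u0 * q1) / (u0 ^ 2 + u1 ^ 2) * u0 = q1 := by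
    rw [← hq]; field_simp; ring
  constructor
  · have : ((!₂[c * u0 / (u0 ^ 2 + u1 ^ 2), c * u1 / (u0 ^ 2 + u1 ^ 2)] : Pl) +
      ((-u1 * q0 + u0 * q1) / (u0 ^ 2 + u1 ^ 2)) • (!₂[-u1, u0] : Pl)) 0 - a 0 =
        τ * (SignType.sign u0 : ℝ) := by
      simp only [PiLp.add_apply, PiLp.smul_apply, smul_eq_mul]
      simp only [Matrix.cons_val_zero]
      rw [c0]; simp only [q0]; ring
    rw [this, abs_mul]
    calc |τ| * |(SignType.sign u0 : ℝ)| ≤ 7 * 1 := by gcongr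
      _ = 7 := by norm_num
  · have : ((!₂[c * u0 / (u0 ^ 2 + u1 ^ 2), c * u1 / (u0 ^ 2 + u1 ^ 2)] : Pl) +
      ((-u1 * q0 + u0 * q1) / (u0 ^ 2 + u1 ^ 2)) • (!₂[-u1, u0] : Pl)) 1 - a 1 =
        τ * (SignType.sign u1 : ℝ) := by
      simp only [PiLp.add_apply, PiLp.smul_apply, smul_eq_mul]
      simp only [Matrix.cons_val_one, Matrix.cons_val_zero]
      rw [c1]; simp only [q1]; ring
    rw [this, abs_mul]
    calc |τ| * |(SignType.sign u1 : ℝ)| ≤ 7 * 1 := by gcongr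
      _ = 7 := by norm_num

lemma three_of (I : Finset (Fin 8)) (i1 j1 i2 j2 i3 j3 : Fin 8)
    (hd : [i1, j1, i2, j2, i3, j3].Nodup)
    (h1 : i1 ∈ I ∨ j1 ∈ I) (h2 : i2 ∈ I ∨ j2 ∈ I) (h3 : i3 ∈ I ∨ j3 ∈ I) : 3 ≤ I.card := by
  have key : ∀ a b c : Fin 8, a ∈ I → b ∈ I → c ∈ I → a ≠ b → a ≠ c → b ≠ c → 3 ≤ I.card := by
    intro a b c ha hb hc hab hac hbc
    have : ({a, b, c} : Finset (Fin 8)) ⊆ I := by
      intro x hx
      simp only [Finset.mem_insert, Finset.mem_singleton] at hx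
      rcases hx with rfl | rfl | rfl <;> assumption
    calc 3 = ({a, b, c} : Finset (Fin 8)).card := by
          rw [Finset.card_eq_three.2 ⟨a, b, c, hab, hac, hbc, rfl⟩]
      _ ≤ _ := Finset.card_le_card this
  simp only [List.nodup_cons, List.mem_cons, List.not_mem_nil, or_false, not_or,
    not_false_eq_true, List.nodup_nil, and_true] at hd
  obtain ⟨⟨a1, a2, a3, a4, a5⟩, ⟨b1, b2, b3, b4⟩, ⟨c1, c2, c3⟩, ⟨d1, d2⟩, e1⟩ := hd
  rcases h1 with h1 | h1 <;> rcases h2 with h2 | h2 <;> rcases h3 with h3 | h3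
  · exact key _ _ _ h1 h2 h3 a2 a4 c2
  · exact key _ _ _ h1 h2 h3 a2 a5 c3
  · exact key _ _ _ h1 h2 h3 a3 a4 d1
  · exact key _ _ _ h1 h2 h3 a3 a5 d2
  · exact key _ _ _ h1 h2 h3 b1 b3 c2
  · exact key _ _ _ h1 h2 h3 b1 b4 c3
  · exact key _ _ _ h1 h2 h3 b2 b3 d1
  · exact key _ _ _ h1 h2 h3 b2 b4 d2

/-- `far apart` in direction `(u0, u1)`: no line with this normal meets both squares. -/
def Conf (u0 u1 : ℝ) (i j : Fin 8) : Prop :=
  14 * (|u0| + |u1|) < |u0 * (px j - px i) + u1 * (py j - py i)|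

lemma cone0 (u0 u1 : ℝ) (hu : u0 ≠ 0 ∨ u1 ≠ 0) (h0 : 0 ≤ u0) (h1 : 0 ≤ u1)
    (hc1 : 0 ≤ 1 * u1 - 0 * u0) (hc2 : 0 ≤ 1 * u0 - 1 * u1) :
    Conf u0 u1 3 5 ∧ Conf u0 u1 7 0 ∧ Conf u0 u1 6 4 := by
  have hpos : 0 < u0 + u1 := by
    rcases hu with h | h
    · rcases lt_or_gt_of_ne h with h | h <;> linarith
    · rcases lt_or_gt_of_ne h with h | h <;> linarith
  refine ⟨?_, ?_, ?_⟩ <;>
  · unfold Conf
    simp only [px_0, px_1, px_2, px_3, px_4, px_5, px_6, px_7, py_0, py_1, py_2, py_3, py_4, py_5, py_6, py_7, abs_of_nonneg h0, abs_of_nonneg h1]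
    refine lt_of_lt_of_le ?_ (le_abs_self _)
    push_cast
    linarith

lemma cone1 (u0 u1 : ℝ) (hu : u0 ≠ 0 ∨ u1 ≠ 0) (h0 : 0 ≤ u0) (h1 : 0 ≤ u1)
    (hc1 : 0 ≤ 1 * u1 - 1 * u0) (hc2 : 0 ≤ 2 * u0 - 1 * u1) :
    Conf u0 u1 3 5 ∧ Conf u0 u1 7 0 ∧ Conf u0 u1 6 4 := by
  have hpos : 0 < u0 + u1 := by
    rcases hu with h | h
    · rcases lt_or_gt_of_ne h with h | h <;> linarith
    · rcases lt_or_gt_of_ne h with h | h <;> linarith
  refine ⟨?_, ?_, ?_⟩ <;>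
  · unfold Conf
    simp only [px_0, px_1, px_2, px_3, px_4, px_5, px_6, px_7, py_0, py_1, py_2, py_3, py_4, py_5, py_6, py_7, abs_of_nonneg h0, abs_of_nonneg h1]
    refine lt_of_lt_of_le ?_ (le_abs_self _)
    push_cast
    linarith

lemma cone2 (u0 u1 : ℝ) (hu : u0 ≠ 0 ∨ u1 ≠ 0) (h0 : 0 ≤ u0) (h1 : 0 ≤ u1)
    (hc1 : 0 ≤ 1 * u1 - 2 * u0) (hc2 : 0 ≤ 3 * u0 - 1 * u1) :
    Conf u0 u1 3 5 ∧ Conf u0 u1 7 0 ∧ Conf u0 u1 6 4 := by
  have hpos : 0 < u0 + u1 := by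
    rcases hu with h | h
    · rcases lt_or_gt_of_ne h with h | h <;> linarith
    · rcases lt_or_gt_of_ne h with h | h <;> linarith
  refine ⟨?_, ?_, ?_⟩ <;>
  · unfold Conf
    simp only [px_0, px_1, px_2, px_3, px_4, px_5, px_6, px_7, py_0, py_1, py_2, py_3, py_4, py_5, py_6, py_7, abs_of_nonneg h0, abs_of_nonneg h1]
    refine lt_of_lt_of_le ?_ (le_abs_self _)
    push_cast
    linarith

lemma cone3 (u0 u1 : ℝ) (hu : u0 ≠ 0 ∨ u1 ≠ 0) (h0 : 0 ≤ u0) (h1 : 0 ≤ u1)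
    (hc1 : 0 ≤ 1 * u1 - 3 * u0) (hc2 : 0 ≤ 4 * u0 - 1 * u1) :
    Conf u0 u1 3 5 ∧ Conf u0 u1 7 4 ∧ Conf u0 u1 6 0 := by
  have hpos : 0 < u0 + u1 := by
    rcases hu with h | h
    · rcases lt_or_gt_of_ne h with h | h <;> linarith
    · rcases lt_or_gt_of_ne h with h | h <;> linarith
  refine ⟨?_, ?_, ?_⟩ <;>
  · unfold Conf
    simp only [px_0, px_1, px_2, px_3, px_4, px_5, px_6, px_7, py_0, py_1, py_2, py_3, py_4, py_5, py_6, py_7, abs_of_nonneg h0, abs_of_nonneg h1]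
    refine lt_of_lt_of_le ?_ (le_abs_self _)
    push_cast
    linarith

lemma cone4 (u0 u1 : ℝ) (hu : u0 ≠ 0 ∨ u1 ≠ 0) (h0 : 0 ≤ u0) (h1 : 0 ≤ u1)
    (hc1 : 0 ≤ 1 * u1 - 4 * u0) (hc2 : 0 ≤ 1 * u0 - 0 * u1) :
    Conf u0 u1 1 5 ∧ Conf u0 u1 3 0 ∧ Conf u0 u1 7 4 := by
  have hpos : 0 < u0 + u1 := by
    rcases hu with h | h
    · rcases lt_or_gt_of_ne h with h | h <;> linarith
    · rcases lt_or_gt_of_ne h with h | h <;> linarith
  refine ⟨?_, ?_, ?_⟩ <;>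
  · unfold Conf
    simp only [px_0, px_1, px_2, px_3, px_4, px_5, px_6, px_7, py_0, py_1, py_2, py_3, py_4, py_5, py_6, py_7, abs_of_nonneg h0, abs_of_nonneg h1]
    refine lt_of_lt_of_le ?_ (le_abs_self _)
    push_cast
    linarith

lemma cone5 (u0 u1 : ℝ) (hu : u0 ≠ 0 ∨ u1 ≠ 0) (h0 : u0 ≤ 0) (h1 : 0 ≤ u1)
    (hc1 : 0 ≤ 0 * u1 - 1 * u0) (hc2 : 0 ≤ 11 * u0 - -1 * u1) :
    Conf u0 u1 3 4 ∧ Conf u0 u1 1 0 ∧ Conf u0 u1 2 5 := by
  have hpos : 0 < -u0 + u1 := by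
    rcases hu with h | h
    · rcases lt_or_gt_of_ne h with h | h <;> linarith
    · rcases lt_or_gt_of_ne h with h | h <;> linarith
  refine ⟨?_, ?_, ?_⟩ <;>
  · unfold Conf
    simp only [px_0, px_1, px_2, px_3, px_4, px_5, px_6, px_7, py_0, py_1, py_2, py_3, py_4, py_5, py_6, py_7, abs_of_nonpos h0, abs_of_nonneg h1]
    refine lt_of_lt_of_le ?_ (le_abs_self _)
    push_cast
    linarith

lemma cone6 (u0 u1 : ℝ) (hu : u0 ≠ 0 ∨ u1 ≠ 0) (h0 : u0 ≤ 0) (h1 : 0 ≤ u1)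
    (hc1 : 0 ≤ -1 * u1 - 11 * u0) (hc2 : 0 ≤ 3 * u0 - -1 * u1) :
    Conf u0 u1 1 6 ∧ Conf u0 u1 2 0 ∧ Conf u0 u1 3 4 := by
  have hpos : 0 < -u0 + u1 := by
    rcases hu with h | h
    · rcases lt_or_gt_of_ne h with h | h <;> linarith
    · rcases lt_or_gt_of_ne h with h | h <;> linarith
  refine ⟨?_, ?_, ?_⟩ <;>
  · unfold Conf
    simp only [px_0, px_1, px_2, px_3, px_4, px_5, px_6, px_7, py_0, py_1, py_2, py_3, py_4, py_5, py_6, py_7, abs_of_nonpos h0, abs_of_nonneg h1]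
    refine lt_of_lt_of_le ?_ (le_abs_self _)
    push_cast
    linarith

lemma cone7 (u0 u1 : ℝ) (hu : u0 ≠ 0 ∨ u1 ≠ 0) (h0 : u0 ≤ 0) (h1 : 0 ≤ u1)
    (hc1 : 0 ≤ -1 * u1 - 3 * u0) (hc2 : 0 ≤ 0 * u0 - -1 * u1) :
    Conf u0 u1 1 4 ∧ Conf u0 u1 2 0 ∧ Conf u0 u1 3 6 := by
  have hpos : 0 < -u0 + u1 := by
    rcases hu with h | h
    · rcases lt_or_gt_of_ne h with h | h <;> linarith
    · rcases lt_or_gt_of_ne h with h | h <;> linarith
  refine ⟨?_, ?_, ?_⟩ <;>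
  · unfold Conf
    simp only [px_0, px_1, px_2, px_3, px_4, px_5, px_6, px_7, py_0, py_1, py_2, py_3, py_4, py_5, py_6, py_7, abs_of_nonpos h0, abs_of_nonneg h1]
    refine lt_of_lt_of_le ?_ (le_abs_self _)
    push_cast
    linarith

lemma conf_neg {u0 u1 : ℝ} {i j : Fin 8} (h : Conf (-u0) (-u1) i j) : Conf u0 u1 i j := by
  unfold Conf at *
  rw [abs_neg, abs_neg] at h
  refine h.trans_eq ?_
  rw [← abs_neg]
  congr 1
  ring

lemma conf_half (u0 u1 : ℝ) (hu : u0 ≠ 0 ∨ u1 ≠ 0) (h1 : 0 ≤ u1) :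
    ∃ i1 j1 i2 j2 i3 j3 : Fin 8, [i1, j1, i2, j2, i3, j3].Nodup ∧
      Conf u0 u1 i1 j1 ∧ Conf u0 u1 i2 j2 ∧ Conf u0 u1 i3 j3 := by
  rcases le_total 0 u0 with h0 | h0
  · skip
    rcases le_total 0 (1 * u0 - 1 * u1) with hc2 | hc2
    · obtain ⟨a, b, c⟩ := cone0 u0 u1 hu h0 h1 (by linarith) hc2
      exact ⟨_, _, _, _, _, _, by decide, a, b, c⟩
    rcases le_total 0 (2 * u0 - 1 * u1) with hc2 | hc2
    · obtain ⟨a, b, c⟩ := cone1 u0 u1 hu h0 h1 (by linarith) hc2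
      exact ⟨_, _, _, _, _, _, by decide, a, b, c⟩
    rcases le_total 0 (3 * u0 - 1 * u1) with hc2 | hc2
    · obtain ⟨a, b, c⟩ := cone2 u0 u1 hu h0 h1 (by linarith) hc2
      exact ⟨_, _, _, _, _, _, by decide, a, b, c⟩
    rcases le_total 0 (4 * u0 - 1 * u1) with hc2 | hc2
    · obtain ⟨a, b, c⟩ := cone3 u0 u1 hu h0 h1 (by linarith) hc2
      exact ⟨_, _, _, _, _, _, by decide, a, b, c⟩
    obtain ⟨a, b, c⟩ := cone4 u0 u1 hu h0 h1 (by linarith) (by linarith)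
    exact ⟨_, _, _, _, _, _, by decide, a, b, c⟩
  · skip
    rcases le_total 0 (11 * u0 - -1 * u1) with hc2 | hc2
    · obtain ⟨a, b, c⟩ := cone5 u0 u1 hu h0 h1 (by linarith) hc2
      exact ⟨_, _, _, _, _, _, by decide, a, b, c⟩
    rcases le_total 0 (3 * u0 - -1 * u1) with hc2 | hc2
    · obtain ⟨a, b, c⟩ := cone6 u0 u1 hu h0 h1 (by linarith) hc2
      exact ⟨_, _, _, _, _, _, by decide, a, b, c⟩
    obtain ⟨a, b, c⟩ := cone7 u0 u1 hu h0 h1 (by linarith) (by linarith)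
    exact ⟨_, _, _, _, _, _, by decide, a, b, c⟩

lemma conf_all (u0 u1 : ℝ) (hu : u0 ≠ 0 ∨ u1 ≠ 0) :
    ∃ i1 j1 i2 j2 i3 j3 : Fin 8, [i1, j1, i2, j2, i3, j3].Nodup ∧
      Conf u0 u1 i1 j1 ∧ Conf u0 u1 i2 j2 ∧ Conf u0 u1 i3 j3 := by
  rcases le_total 0 u1 with h1 | h1
  · exact conf_half u0 u1 hu h1
  · obtain ⟨i1, j1, i2, j2, i3, j3, hd, a, b, c⟩ := conf_half (-u0) (-u1)
      (by simpa using hu) (by linarith)
    exact ⟨i1, j1, i2, j2, i3, j3, hd, conf_neg a, conf_neg b, conf_neg c⟩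

/-- The negation of the preceding statement: For any compact convex planar set K and finitely many pairwise disjoint translates of K, if every at most three of them are met by a common line, then some line meets all of them except at most two. -/
theorem result :
    ¬ (∀ (K : Set (EuclideanSpace ℝ (Fin 2))), IsCompact K → Convex ℝ K →
      ∀ (T : Finset (EuclideanSpace ℝ (Fin 2))),
        (∀ a ∈ T, ∀ b ∈ T, a ≠ b →
          Disjoint ((fun x => a + x) '' K) ((fun x => b + x) '' K)) →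
        (∀ S ⊆ T, S.card ≤ 3 →
          ∃ p v : EuclideanSpace ℝ (Fin 2), v ≠ 0 ∧
            ∀ a ∈ S, ∃ s : ℝ, p + s • v ∈ (fun x => a + x) '' K) →
        ∃ p v : EuclideanSpace ℝ (Fin 2), v ≠ 0 ∧
          ∃ E ⊆ T, E.card ≤ 2 ∧
            ∀ a ∈ T \ E, ∃ s : ℝ, p + s • v ∈ (fun x => a + x) '' K) := by
  intro H
  classical
  have hdis : ∀ a ∈ (Finset.univ.image ctr : Finset Pl), ∀ b ∈ (Finset.univ.image ctr : Finset Pl),
      a ≠ b → Disjoint ((fun x => a + x) '' Sq) ((fun x => b + x) '' Sq) := by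
    intro a ha b hb hab
    simp only [Finset.mem_image, Finset.mem_univ, true_and] at ha hb
    obtain ⟨i, rfl⟩ := ha
    obtain ⟨j, rfl⟩ := hb
    have hij : i ≠ j := fun h => hab (by rw [h])
    rw [Set.disjoint_left]
    intro z hz1 hz2
    rw [mem_trans] at hz1 hz2
    simp only [ctr0, ctr1] at hz1 hz2
    obtain ⟨a0, a1⟩ := hz1
    obtain ⟨b0, b1⟩ := hz2
    rw [abs_le] at a0 a1 b0 b1
    rcases far i j hij with h | h
    · have h' : (14 : ℝ) < |(px i : ℝ) - px j| := by exact_mod_cast h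
      rw [lt_abs] at h'
      rcases h' with h' | h' <;> linarith
    · have h' : (14 : ℝ) < |(py i : ℝ) - py j| := by exact_mod_cast h
      rw [lt_abs] at h'
      rcases h' with h' | h' <;> linarith
  have htri : ∀ S ⊆ (Finset.univ.image ctr : Finset Pl), S.card ≤ 3 →
      ∃ p v : Pl, v ≠ 0 ∧ ∀ a ∈ S, ∃ s : ℝ, p + s • v ∈ (fun x => a + x) '' Sq := by
    intro S hS hS3
    have hidx : ∃ i j k : Fin 8, ∀ a ∈ S, a = ctr i ∨ a = ctr j ∨ a = ctr k := by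
      have hmem : ∀ a ∈ S, ∃ i, ctr i = a := by
        intro a ha
        have := hS ha
        simpa using this
      have hcard : S.card = 0 ∨ S.card = 1 ∨ S.card = 2 ∨ S.card = 3 := by omega
      rcases hcard with h | h | h | h
      · rw [Finset.card_eq_zero] at h
        subst h
        exact ⟨0, 0, 0, by simp⟩
      · rw [Finset.card_eq_one] at h
        obtain ⟨x, rfl⟩ := h
        obtain ⟨i, hi⟩ := hmem x (by simp)
        exact ⟨i, i, i, by simp [hi]⟩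
      · rw [Finset.card_eq_two] at h
        obtain ⟨x, y, -, rfl⟩ := h
        obtain ⟨i, hi⟩ := hmem x (by simp)
        obtain ⟨j, hj⟩ := hmem y (by simp)
        exact ⟨i, j, j, by simp [hi, hj]⟩
      · rw [Finset.card_eq_three] at h
        obtain ⟨x, y, z, -, -, -, rfl⟩ := h
        obtain ⟨i, hi⟩ := hmem x (by simp)
        obtain ⟨j, hj⟩ := hmem y (by simp)
        obtain ⟨k, hk⟩ := hmem z (by simp)
        exact ⟨i, j, k, by simp [hi, hj, hk]⟩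
    obtain ⟨i, j, k, hijk⟩ := hidx
    obtain ⟨⟨⟨A, B⟩, C⟩, -, hAB, hl⟩ := tab_spec i j k
    simp only at hAB hl
    have hAB' : (A : ℝ) ≠ 0 ∨ (B : ℝ) ≠ 0 := by
      rcases hAB with h | h
      · left; exact_mod_cast h
      · right; exact_mod_cast h
    refine ⟨!₂[(C : ℝ) * A / ((A : ℝ) ^ 2 + (B : ℝ) ^ 2), (C : ℝ) * B / ((A : ℝ) ^ 2 + (B : ℝ) ^ 2)],
      !₂[-(B : ℝ), (A : ℝ)], ?_, ?_⟩
    · intro h
      have h0 := congrArg (fun z : Pl => z 0) h
      have h1 := congrArg (fun z : Pl => z 1) h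
      simp at h0 h1
      rcases hAB with h' | h'
      · exact h' h1
      · exact h' h0
    · intro a ha
      have : ∃ l ∈ [i, j, k], a = ctr l := by
        rcases hijk a ha with h | h | h
        · exact ⟨i, by simp, h⟩
        · exact ⟨j, by simp, h⟩
        · exact ⟨k, by simp, h⟩
      obtain ⟨l, hlm, rfl⟩ := this
      refine hits hAB' (ctr l) ?_
      have := hl l hlm
      rw [ctr0, ctr1]
      exact_mod_cast this
  obtain ⟨p, v, hv, E, hET, hE2, hE⟩ := H Sq sq_compact sq_convex (Finset.univ.image ctr) hdis htri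
  set u0 : ℝ := - v 1
  set u1 : ℝ := v 0
  have hu : u0 ≠ 0 ∨ u1 ≠ 0 := by
    by_contra hcon
    push Not at hcon
    apply hv
    ext i
    fin_cases i
    · simpa using hcon.2
    · have := hcon.1
      simp only [u0, neg_eq_zero] at this
      simpa using this
  set I : Finset (Fin 8) := Finset.univ.filter (fun i => ctr i ∈ E) with hI
  have hIc : I.card ≤ 2 := by
    have : (I.image ctr).card ≤ E.card := Finset.card_le_card (by
      intro x hx
      simp only [Finset.mem_image, hI, Finset.mem_filter, Finset.mem_univ, true_and] at hx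
      obtain ⟨i, hi, rfl⟩ := hx
      exact hi)
    rw [Finset.card_image_of_injective _ ctr_inj] at this
    omega
  have near : ∀ i : Fin 8, i ∉ I → |u0 * px i + u1 * py i - (u0 * p 0 + u1 * p 1)| ≤ 7 * (|u0| + |u1|) := by
    intro i hi
    have hiE : ctr i ∉ E := by
      intro h
      apply hi
      simp [hI, h]
    obtain ⟨s, hs⟩ := hE (ctr i) (by
      rw [Finset.mem_sdiff]
      exact ⟨Finset.mem_image_of_mem _ (Finset.mem_univ i), hiE⟩)
    rw [mem_trans] at hs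
    obtain ⟨g0, g1⟩ := hs
    simp only [PiLp.add_apply, PiLp.smul_apply, smul_eq_mul, ctr0, ctr1] at g0 g1
    have : u0 * px i + u1 * py i - (u0 * p 0 + u1 * p 1) =
        -(u0 * (p 0 + s * v 0 - px i)) + -(u1 * (p 1 + s * v 1 - py i)) := by
      simp only [u0, u1]; ring
    rw [this]
    calc |-(u0 * (p 0 + s * v 0 - px i)) + -(u1 * (p 1 + s * v 1 - py i))|
        ≤ |-(u0 * (p 0 + s * v 0 - px i))| + |-(u1 * (p 1 + s * v 1 - py i))| := abs_add_le _ _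
      _ = |u0| * |p 0 + s * v 0 - px i| + |u1| * |p 1 + s * v 1 - py i| := by
          rw [abs_neg, abs_neg, abs_mul, abs_mul]
      _ ≤ |u0| * 7 + |u1| * 7 := by gcongr
      _ = 7 * (|u0| + |u1|) := by ring
  have cover : ∀ i j : Fin 8, Conf u0 u1 i j → i ∈ I ∨ j ∈ I := by
    intro i j hc
    by_contra hcon
    push Not at hcon
    have a := near i hcon.1
    have b := near j hcon.2
    unfold Conf at hc
    have : u0 * ((px j : ℝ) - px i) + u1 * (py j - py i) =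
        (u0 * px j + u1 * py j - (u0 * p 0 + u1 * p 1)) - (u0 * px i + u1 * py i - (u0 * p 0 + u1 * p 1)) := by
      ring
    rw [this] at hc
    have := abs_sub (u0 * px j + u1 * py j - (u0 * p 0 + u1 * p 1)) (u0 * px i + u1 * py i - (u0 * p 0 + u1 * p 1))
    linarith
  obtain ⟨i1, j1, i2, j2, i3, j3, hd, a, b, c⟩ := conf_all u0 u1 hu
  have := three_of I i1 j1 i2 j2 i3 j3 hd (cover _ _ a) (cover _ _ b) (cover _ _ c)
  omega

end Pool.Agent.S09776
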