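import Pool.Statements.S10497
import Pool.Agent.TH429.GI.Gam

set_option autoImplicit false
open Pool Pool.MP_a1a173_co

namespace Pool.Agent.S10497

open Pool.Agent.TH429.GI Polynomial in
theorem coeff_bb (n i j : ℕ) : ∃ z : ℤ, (bb n j).coeff i = z := by
  refine ⟨(if 2 * j ≤ n then (X : ℤ[X]) ^ j * (1 + X) ^ (n - 2 * j) else 0).coeff i, ?_⟩
  have : bb n j = (if 2 * j ≤ n then (X : ℤ[X]) ^ j * (1 + X) ^ (n - 2 * j) else 0).map
      (Int.castRingHom ℚ) := by
    unfold bb
    split_ifs
    · simp
    · simp
  rw [this, Polynomial.coeff_map]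
  rfl

open Pool.Agent.TH429.GI Polynomial in
theorem integral (n : ℕ) : ∀ i : ℕ, ∃ z : ℤ, Gm n i = z := by
  intro i
  induction i using Nat.strong_induction_on with
  | _ i ih =>
    rcases Nat.lt_or_ge n (2 * i) with h | h
    · exact ⟨0, by rw [Gm_supp n i h]; simp⟩
    · have h1 := congrArg (fun p => Polynomial.coeff p i) (map_PP (n + 1) n (by omega))
      simp only [Polynomial.coeff_map] at h1
      unfold Sm at h1
      rw [Polynomial.finsetSum_coeff] at h1
      simp only [Polynomial.coeff_C_mul] at h1
      have hsplit : ∑ j ∈ Finset.range (n + 1), Gm n j * (bb n j).coeff i =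
          ∑ j ∈ Finset.range i, Gm n j * (bb n j).coeff i + Gm n i := by
        have hsub : Finset.range (i + 1) ⊆ Finset.range (n + 1) := by
          intro x hx
          rw [Finset.mem_range] at hx ⊢
          omega
        rw [← Finset.sum_subset hsub, Finset.sum_range_succ]
        · congr 1
          unfold bb
          rw [if_pos h, Polynomial.coeff_X_pow_mul', if_pos le_rfl, Nat.sub_self,
            Polynomial.coeff_zero_eq_eval_zero]
          simp
        · intro j _ hj
          rw [Finset.mem_range] at hj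
          unfold bb
          split_ifs
          · rw [Polynomial.coeff_X_pow_mul', if_neg (by omega), mul_zero]
          · simp
      rw [hsplit] at h1
      have h2 : ∃ z : ℤ, ∑ j ∈ Finset.range i, Gm n j * (bb n j).coeff i = z := by
        have : ∀ s : Finset ℕ, (∀ j ∈ s, j < i) →
            ∃ z : ℤ, ∑ j ∈ s, Gm n j * (bb n j).coeff i = z := by
          classical
          intro s
          induction s using Finset.induction_on with
          | empty => intro _; exact ⟨0, by simp⟩
          | insert a s ha ih2 =>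
            intro hs
            obtain ⟨z1, h1⟩ := ih2 (fun j hj => hs j (Finset.mem_insert_of_mem hj))
            obtain ⟨z2, h2⟩ := ih a (hs a (Finset.mem_insert_self _ _))
            obtain ⟨z3, h3⟩ := coeff_bb n i a
            refine ⟨z2 * z3 + z1, ?_⟩
            rw [Finset.sum_insert ha, h1, h2, h3]
            push_cast
            rfl
        exact this _ (fun j hj => Finset.mem_range.1 hj)
      obtain ⟨z, hz⟩ := h2
      refine ⟨(PP n).coeff i - z, ?_⟩
      rw [hz] at h1
      push_cast
      have h3 : (Int.castRingHom ℚ) ((PP n).coeff i) = (((PP n).coeff i : ℤ) : ℚ) := rfl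
      rw [h3] at h1
      linarith

/-- For every n, the type-B descent polynomial summed over involutions of the hyperoctahedral group B_n (with w(0)=0) equals the sum over i from 0 to n/2 of g_i x^i (1+x)^(n-2i), with every g_i a nonnegative integer. -/
theorem result : ∀ n : ℕ, ∃ γ : ℕ → ℕ,
    (∑ w ∈ (Finset.univ : Finset (Equiv.Perm (Fin n) × (Fin n → Bool))).filter
        (fun w => ∀ i : Fin n, w.1 (w.1 i) = i ∧ w.2 (w.1 i) = w.2 i),
      (Polynomial.X : Polynomial ℤ) ^
        ((Finset.univ.filter (fun j : Fin n => j.val = 0 ∧ w.2 j = true)).card +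
          (Finset.univ.filter (fun p : Fin n × Fin n => p.2.val = p.1.val + 1 ∧
            (if w.2 p.2 then (-1 : ℤ) else 1) * (((w.1 p.2 : ℕ) : ℤ) + 1) <
            (if w.2 p.1 then (-1 : ℤ) else 1) * (((w.1 p.1 : ℕ) : ℤ) + 1))).card))
    = ∑ i ∈ Finset.range (n / 2 + 1),
        Polynomial.C (γ i : ℤ) * Polynomial.X ^ i * (1 + Polynomial.X) ^ (n - 2 * i) := by
  intro n
  choose z hz using integral n
  have hnn : ∀ i, 0 ≤ z i := by
    intro i
    have := Pool.Agent.TH429.GI.Gm_nonneg n i
    rw [hz i] at this
    exact_mod_cast this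
  refine ⟨fun i => (z i).toNat, ?_⟩
  have hl : (∑ w ∈ (Finset.univ : Finset (Equiv.Perm (Fin n) × (Fin n → Bool))).filter
        (fun w => ∀ i : Fin n, w.1 (w.1 i) = i ∧ w.2 (w.1 i) = w.2 i),
      (Polynomial.X : Polynomial ℤ) ^
        ((Finset.univ.filter (fun j : Fin n => j.val = 0 ∧ w.2 j = true)).card +
          (Finset.univ.filter (fun p : Fin n × Fin n => p.2.val = p.1.val + 1 ∧
            (if w.2 p.2 then (-1 : ℤ) else 1) * (((w.1 p.2 : ℕ) : ℤ) + 1) <
            (if w.2 p.1 then (-1 : ℤ) else 1) * (((w.1 p.1 : ℕ) : ℤ) + 1))).card)) =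
      Pool.Agent.TH429.GI.PP n := by
    unfold Pool.Agent.TH429.GI.PP Pool.Agent.TH429.GI.SI
    apply Finset.sum_congr rfl
    intro w _
    rw [Pool.Agent.TH429.GI.des_eq w]
  rw [hl]
  apply Polynomial.map_injective (Int.castRingHom ℚ) (RingHom.injective_int _)
  rw [Pool.Agent.TH429.GI.map_PP (n + 1) n (by omega), Polynomial.map_sum]
  unfold Pool.Agent.TH429.GI.Sm
  have hsub : Finset.range (n / 2 + 1) ⊆ Finset.range (n + 1) := by
    intro x hx
    rw [Finset.mem_range] at hx ⊢
    omega
  rw [← Finset.sum_subset hsub]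
  · apply Finset.sum_congr rfl
    intro i hi
    rw [Finset.mem_range] at hi
    unfold Pool.Agent.TH429.GI.bb
    rw [if_pos (by omega), hz i]
    rw [Polynomial.map_mul, Polynomial.map_mul, Polynomial.map_C, Polynomial.map_pow,
      Polynomial.map_pow, Polynomial.map_add, Polynomial.map_one, Polynomial.map_X, mul_assoc]
    congr 2
    have : (((z i).toNat : ℕ) : ℤ) = z i := Int.toNat_of_nonneg (hnn i)
    rw [this]
    rfl
  · intro i _ hi
    rw [Finset.mem_range] at hi
    rw [Pool.Agent.TH429.GI.bb_zero (by omega), mul_zero]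

end Pool.Agent.S10497
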