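import Pool.Statements.S12905
import Pool.Agent.TH586.Illum3

set_option autoImplicit false
open Pool Pool.MP_26bcd4_gt

namespace Pool.Agent.S12905

open Pool.Agent.TH586.Illum

/-- a functional that attains its maximum over `K` at an interior point is zero -/
theorem eq_zero_of_interior {K : Set E} {z : E} (hz : z ∈ interior K) (f : E →L[ℝ] ℝ)
    (hf : ∀ y ∈ K, f y ≤ f z) : f = 0 := by
  have hloc : IsLocalMax f z := by
    filter_upwards [mem_interior_iff_mem_nhds.mp hz] with y hy
    exact hf y hy
  have h1 := hloc.fderiv_eq_zero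
  rw [ContinuousLinearMap.fderiv] at h1
  exact h1

/-- supporting functional at a point of a convex set outside its interior -/
theorem exists_support {K : Set E} (hK : IsCompact K) (hc : Convex ℝ K) (hne : (interior K).Nonempty)
    {z : E} (hz : z ∉ interior K) : ∃ f : E →L[ℝ] ℝ, f ≠ 0 ∧ ∀ y ∈ K, f y ≤ f z := by
  obtain ⟨f, hf⟩ := geometric_hahn_banach_open_point hc.interior isOpen_interior hz
  refine ⟨f, ?_, ?_⟩
  · rintro rfl
    obtain ⟨y, hy⟩ := hne
    have := hf y hy
    simp at this
  · intro y hy
    have hy' : y ∈ closure (interior K) := by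
      rw [hc.closure_interior_eq_closure_of_nonempty_interior hne, hK.isClosed.closure_eq]
      exact hy
    exact closure_minimal (fun w hw => (hf w hw).le) (isClosed_le f.continuous continuous_const) hy'

/-- There is a natural number N such that for every compact convex set with nonempty interior in 3-space, every primitive inner illuminating set of it (a boundary subset illuminating from inside, no proper subset of which does) has at most N elements. -/
theorem result :
    ∃ N : ℕ, ∀ K : Set (EuclideanSpace ℝ (Fin 3)),
      IsCompact K → Convex ℝ K → (interior K).Nonempty →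
      ∀ A : Set (EuclideanSpace ℝ (Fin 3)),
        (A ⊆ frontier K ∧
          ∀ x ∈ frontier K, ∃ a ∈ A, ∃ ε : ℝ, 0 < ε ∧ ε < 1 ∧
            (1 - ε) • x + ε • a ∈ interior K) →
        (∀ B : Set (EuclideanSpace ℝ (Fin 3)), B ⊆ A → B ≠ A →
          ¬ (B ⊆ frontier K ∧
            ∀ x ∈ frontier K, ∃ b ∈ B, ∃ ε : ℝ, 0 < ε ∧ ε < 1 ∧
              (1 - ε) • x + ε • b ∈ interior K)) →
        A.encard ≤ (N : ℕ∞) := by
  refine ⟨74, ?_⟩
  intro K hK hc hne A hA hprim
  by_contra hcon
  push Not at hcon
  have hcon' : (75 : ℕ∞) ≤ A.encard := by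
    have := Order.add_one_le_of_lt hcon
    norm_num at this
    exact this
  obtain ⟨B, hBA, hB⟩ := Set.exists_subset_encard_eq hcon'
  have hBfin : B.Finite := Set.finite_of_encard_eq_coe (k := 75) (by simpa using hB)
  have hBcard : hBfin.toFinset.card = 75 := by
    have := hBfin.encard_eq_coe_toFinset_card
    rw [hB] at this
    exact_mod_cast this.symm
  have hfr : frontier K ⊆ K := hK.isClosed.frontier_subset
  -- private points
  have hpriv : ∀ a ∈ A, ∃ x ∈ frontier K, (¬ Cof K x a) ∧ ∀ b ∈ A, b ≠ a → Cof K x b := by
    intro a ha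
    have h1 := hprim (A \ {a}) Set.sdiff_subset (by
      intro h
      rw [← h] at ha
      exact ha.2 rfl)
    push Not at h1
    obtain ⟨x, hx, hxb⟩ := h1 (Set.sdiff_subset.trans hA.1)
    refine ⟨x, hx, ?_, ?_⟩
    · obtain ⟨a', ha', ε, h0, h1, h2⟩ := hA.2 x hx
      have haa : a' = a := by
        by_contra hne'
        exact hxb a' ⟨ha', hne'⟩ ε h0 h1 h2
      rw [haa] at h2
      rintro ⟨f, f0, f1, f2⟩
      apply f0
      have e1 : f x = f a := le_antisymm (f2 _ (hfr hx)) (f1 _ (hfr (hA.1 ha)))
      apply eq_zero_of_interior h2 f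
      intro y hy
      have e2 : f ((1 - ε) • x + ε • a) = f a := by
        rw [map_add, map_smul, map_smul, e1]
        simp only [smul_eq_mul]
        ring
      rw [e2]
      exact f2 y hy
    · intro b hb hba
      have h3 := hxb b ⟨hb, hba⟩ (1 / 2) (by norm_num) (by norm_num)
      obtain ⟨f, f0, hf⟩ := exists_support hK hc hne h3
      have e2 : f ((1 - (1 / 2 : ℝ)) • x + (1 / 2 : ℝ) • b) = (f x + f b) / 2 := by
        rw [map_add, map_smul, map_smul]
        simp only [smul_eq_mul]
        ring
      rw [e2] at hf
      have hx' := hf x (hfr hx)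
      have hb' := hf b (hfr (hA.1 hb))
      refine ⟨f, f0, ?_, ?_⟩
      · intro y hy
        have := hf y hy
        linarith
      · intro y hy
        have := hf y hy
        linarith
  choose! x hx1 hx2 hx3 using hpriv
  let e : Fin 75 → E := fun i => (hBfin.toFinset.equivFin.symm (Fin.cast hBcard.symm i)).1
  have heA : ∀ i, e i ∈ A := fun i =>
    hBA (hBfin.mem_toFinset.mp (hBfin.toFinset.equivFin.symm (Fin.cast hBcard.symm i)).2)
  have heinj : Function.Injective e := by
    intro i j hij
    have := hBfin.toFinset.equivFin.symm.injective (Subtype.ext hij)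
    exact Fin.cast_injective _ this
  have C : Conf K e (fun i => x (e i)) :=
    { ha := fun i => hfr (hA.1 (heA i))
      hx := fun i => hfr (hx1 _ (heA i))
      h1 := fun i j hij => hx3 _ (heA i) _ (heA j) (fun h => hij (heinj h.symm))
      h2 := fun i => hx2 _ (heA i) }
  exact C.bound

end Pool.Agent.S12905
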