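import Pool.Statements.S19281
import Pool.Agent.TH948.BD.Final

set_option autoImplicit false
open scoped Classical
open Pool Pool.MP_402caf_pr

namespace Pool.Agent.S19281

/-- For every Δ, every sequence of n-vertex graphs of max degree ≤ Δ and every p with p·n^{2/(Δ+1)}/(log n)^{1/C(Δ+1,2)} → ∞, the probability that G(n,p) contains a copy of H_n tends to 1. -/
theorem result :
    ∀ (Δ : ℕ) (H : ∀ n : ℕ, SimpleGraph (Fin n)) (p : ℕ → ℝ),
      (∀ (n : ℕ) (v : Fin n), (H n).degree v ≤ Δ) →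
      (∀ n : ℕ, 0 ≤ p n ∧ p n ≤ 1) →
      Filter.Tendsto
        (fun n : ℕ => p n * (n : ℝ) ^ ((2 : ℝ) / ((Δ : ℝ) + 1)) /
          (Real.log (n : ℝ)) ^ ((1 : ℝ) / (((Δ + 1).choose 2 : ℕ) : ℝ)))
        Filter.atTop Filter.atTop →
      Filter.Tendsto
        (fun n : ℕ => ∑ G : SimpleGraph (Fin n),
          if (∃ f : Fin n → Fin n, Function.Injective f ∧
                ∀ u v : Fin n, (H n).Adj u v → G.Adj (f u) (f v))
          then p n ^ G.edgeFinset.card * (1 - p n) ^ (n.choose 2 - G.edgeFinset.card)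
          else 0)
        Filter.atTop (nhds 1) := by
  exact Pool.Agent.TH948.BD.final_of Pool.Agent.TH948.BD.five_sevenths

end Pool.Agent.S19281
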